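import Mathlib
import Pool.Agent.helper59.FI4.SpecI
import Pool.Agent.helper70.FI4.SpecK
import Pool.Agent.helper35.BQ.Defs

/-!
# Project fi4e (MP_baa4d7_al): the equivariant form of project fi4. Definitions

`α : MulAut G`; `am α Q` the image of the subgroup `Q`; `al α g` the automorphism `x ↦ g * α x * g⁻¹`. `tS p H S α` is the trace of
`α` on the span of the restrictions to the `p`-regular elements of the characters in `S` (`S` a union of blocks of `H`, `α H = H`), for
`S = Blk M χ H` it is `tL p M χ H α = tau p M χ H α`. `LL` and `LB` of fi4 are the case `α = 1`.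
-/

set_option autoImplicit false

namespace Pool.Agent.FI4E

open Pool.Agent.helper58.DC Pool.Agent.DI Pool.Agent.GR Pool.Agent.OB Pool.Agent.DR Pool.Agent.FI Pool.Agent.FI3 Pool.Agent.FI4 Pool.Agent.FI4I

section

variable {G : Type} [Group G]

/-- The image of a subgroup under an automorphism. -/
def am (α : MulAut G) (Q : Subgroup G) : Subgroup G := Q.map α.toMonoidHom

/-- The automorphism `x ↦ g * α x * g⁻¹`. -/
def al (α : MulAut G) (g : G) : MulAut G := MulAut.conj g * α

/-- The automorphism fixes all terms of the chain. -/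
def FxC (α : MulAut G) (C : Finset (Subgroup G)) : Prop := ∀ Q ∈ C, am α Q = Q

/-- The block of `χ` is stable under `α`. -/
def Stb (M : Ideal (integralClosure ℤ ℂ)) (χ : G → ℂ) (α : MulAut G) : Prop := Induces M (funMap α χ) χ

/-- The trace of `α` on the union `S` of blocks of `H`. -/
noncomputable def tS (p : ℕ) (H : Subgroup G) (S : Set (G → ℂ)) (α : MulAut G) : ℂ :=
  ∑ᶠ ψ ∈ S, EE p H (funMap α ψ) ψ

/-- The trace of `α` on the blocks of `H` which induce to the block of `χ`. -/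
noncomputable def tL (p : ℕ) (M : Ideal (integralClosure ℤ ℂ)) (χ : G → ℂ) (H : Subgroup G) (α : MulAut G) : ℂ :=
  tS p H (Blk M χ H) α

/-- The alternating sum over the pairs `(g, C)`, `C` a normal chain with smallest term `R` all of whose terms are fixed by `al α g`. -/
noncomputable def Om (p : ℕ) (M : Ideal (integralClosure ℤ ℂ)) (χ : G → ℂ) (R : Subgroup G) (α : MulAut G) : ℂ :=
  ∑ᶠ g : G, ∑ᶠ C ∈ {C : Finset (Subgroup G) | NCh p ⊤ R C ∧ FxC (al α g) C},
    (-1 : ℂ) ^ (C.card + 1) * tL p M χ (nrm C) (al α g)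

/-- All prime divisors of `n` are smaller than `p`. -/
def Sml (p n : ℕ) : Prop := ∀ q : ℕ, q.Prime → q ∣ n → q < p

/-- `β` is the restriction of `α` to the subgroup `N`. -/
def Rst (N : Subgroup G) (α : MulAut G) (β : MulAut N) : Prop := ∀ n : N, ((β n : N) : G) = α (n : G)

/-- For every stable block of `N` over `B`, every defect group `cjS g D` of it and every automorphism which fixes `N`, the block
and this defect group, the traces for the block and for its Brauer correspondent agree. -/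
def RedE (p : ℕ) (M : Ideal (integralClosure ℤ ℂ)) (D : Subgroup G) (χ : G → ℂ) (Q N : Subgroup G) : Prop :=
  ∀ φ ∈ Blk M χ N, ∀ g : G, Q ≤ cjS g D → ∀ θ₁ ∈ IrrOn (cz (cjS g D)), SB M N θ₁ φ →
    ∀ β : MulAut G, am β N = N → am β (cjS g D) = cjS g D → SB M N (funMap β φ) φ →
    tS p N (Bq M N N φ) β = tS p (N ⊓ nz (cjS g D)) (Bq M N (N ⊓ nz (cjS g D)) φ) β

/-- `αb` is the automorphism of `Gb` induced by `α`. -/
def Qa {Gb : Type} [Group Gb] (π : G →* Gb) (α : MulAut G) (αb : MulAut Gb) : Prop :=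
  ∀ g : G, αb (π g) = π (α g)

theorem mem_am {α : MulAut G} {Q : Subgroup G} {x : G} : x ∈ am α Q ↔ α⁻¹ x ∈ Q := by
  constructor
  · rintro ⟨y, hy, rfl⟩
    change α⁻¹ (α y) ∈ Q
    rwa [MulAut.inv_apply_self]
  · intro h
    exact ⟨α⁻¹ x, h, MulAut.apply_inv_self G α x⟩

theorem al_apply (α : MulAut G) (g x : G) : al α g x = g * α x * g⁻¹ := rfl

theorem al_inv_apply (α : MulAut G) (g x : G) : (al α g)⁻¹ x = α⁻¹ (g⁻¹ * x * g) := by
  apply (al α g).injective
  rw [MulAut.apply_inv_self, al_apply, MulAut.apply_inv_self]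
  group

theorem al_one (α : MulAut G) : al α 1 = α := by
  unfold al
  rw [map_one, one_mul]

theorem al_al (α : MulAut G) (g h : G) : al (al α g) h = al α (h * g) := by
  unfold al
  rw [map_mul, mul_assoc]

theorem am_mul (α β : MulAut G) (Q : Subgroup G) : am (α * β) Q = am α (am β Q) := by
  ext x
  rw [mem_am, mem_am, mem_am, mul_inv_rev, MulAut.mul_apply]

theorem am_one (Q : Subgroup G) : am 1 Q = Q := by
  ext x
  rw [mem_am, inv_one]
  rfl

theorem am_conj (g : G) (Q : Subgroup G) : am (MulAut.conj g) Q = cjS g Q := rfl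

theorem funMap_mul (α β : MulAut G) (ψ : G → ℂ) : funMap (α * β) ψ = funMap α (funMap β ψ) := by
  funext x
  simp only [funMap]
  rw [mul_inv_rev, MulAut.mul_apply]

theorem funMap_conj (g : G) (ψ : G → ℂ) : funMap (MulAut.conj g) ψ = cjF g ψ := rfl

theorem am_al (α : MulAut G) (g : G) (Q : Subgroup G) : am (al α g) Q = cjS g (am α Q) := am_mul _ _ _

theorem funMap_al (α : MulAut G) (g : G) (ψ : G → ℂ) : funMap (al α g) ψ = cjF g (funMap α ψ) := funMap_mul _ _ _

theorem conj_al (α : MulAut G) (h g : G) :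
    MulAut.conj h * al α g * (MulAut.conj h)⁻¹ = al α (h * g * (α h)⁻¹) := by
  ext x
  have h1 : (MulAut.conj h * al α g * (MulAut.conj h)⁻¹) x = h * (g * α (h⁻¹ * x * h) * g⁻¹) * h⁻¹ := by
    rw [MulAut.mul_apply, MulAut.mul_apply, ← map_inv, MulAut.conj_apply, MulAut.conj_apply, al_apply, inv_inv]
  rw [h1, al_apply, map_mul, map_mul, map_inv]
  group

end

/-- The holomorph of `G`, with `G` as a normal subgroup and the quotient `MulAut G`. -/
noncomputable def hol (G : Type) [Group G] :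
    Extension G (G ⋊[MonoidHom.id (MulAut G)] MulAut G) (MulAut G) where
  inc := SemidirectProduct.inl
  proj := SemidirectProduct.rightHom
  inc_injective := SemidirectProduct.inl_injective
  proj_surjective := SemidirectProduct.rightHom_surjective
  exact := fun e => by
    constructor
    · intro h
      exact ⟨e.left, by
        apply SemidirectProduct.ext
        · rfl
        · exact h.symm⟩
    · rintro ⟨g, rfl⟩
      rfl
  act := SemidirectProduct.lift MulAut.conj (MonoidHom.id (MulAut G)) (fun β => by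
    ext g x
    simp [MulAut.conj_apply, MulAut.mul_apply])
  act_spec := fun e g => by
    apply SemidirectProduct.ext
    · change MulAut.conj e.left (e.right g) = _
      simp [MulAut.conj_apply]
    · simp

theorem hol_act {G : Type} [Group G] (e : G ⋊[MonoidHom.id (MulAut G)] MulAut G) :
    (hol G).act e = al e.right e.left := rfl

theorem hol_proj {G : Type} [Group G] (e : G ⋊[MonoidHom.id (MulAut G)] MulAut G) :
    (hol G).proj e = e.right := rfl

theorem hol_inc {G : Type} [Group G] (g : G) :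
    (hol G).inc g = SemidirectProduct.inl g := rfl

instance mulAut_finite {G : Type} [Group G] [Finite G] : Finite (MulAut G) :=
  Finite.of_injective (fun α : MulAut G => (α : G → G)) (fun _ _ h => DFunLike.coe_injective h)

instance hol_finite {G : Type} [Group G] [Finite G] : Finite (G ⋊[MonoidHom.id (MulAut G)] MulAut G) :=
  Finite.of_equiv (G × MulAut G) SemidirectProduct.equivProd.symm

/-! ## The interface -/

/-- **OMX** (block E1). Knörr-Robinson for `a = X.proj e`. -/
def OMX_stmt : Prop :=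
  ∀ (p : ℕ) (M : Ideal (integralClosure ℤ ℂ)), Setup p M → ∀ (G E A : Type) [Group G] [Group E] [Group A]
    [Finite G] [Finite E] (X : Extension G E A), IsOp p (⊤ : Subgroup G) ⊥ → ∀ χ ∈ Irr G, ∀ e : E,
    (Nat.card G : ℂ) * (dadeSum X p M χ (X.proj e) : ℂ) = Om p M χ ⊥ (X.act e)

/-- **UNS** (block E2). Blocks which are not stable contribute nothing. -/
def UNS_stmt : Prop :=
  ∀ (p : ℕ) (M : Ideal (integralClosure ℤ ℂ)), Setup p M → ∀ (G : Type) [Group G] [Finite G]
    (α : MulAut G) (H : Subgroup G), am α H = H →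
    (∀ N : Subgroup G, H ≤ N → am α N = N → ∀ φ : G → ℂ, (∀ x, x ∉ N → φ x = 0) → ¬ SB M N (funMap α φ) φ →
      tS p H (Bq M N H φ) α = 0) ∧
    ∀ χ : G → ℂ, ¬ Stb M χ α → tL p M χ H α = 0

/-- **DV4E** (block E3, helper70). The congruence. -/
def DV4E_stmt : Prop :=
  ∀ (p : ℕ) (M : Ideal (integralClosure ℤ ℂ)), Setup p M → ∀ (G : Type) [Group G] [Finite G]
    (D : Subgroup G) (x : G) (θ χ : G → ℂ), Rt p M D x θ χ →
    (∀ ψ ∈ Blk M χ (⊤ : Subgroup G), ∀ a : ℕ, Nat.card D = p ^ a → Defect p ⊤ ψ a) →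
    ∀ R : Subgroup G, IsOp p (⊤ : Subgroup G) R → R ≤ D → R ≠ D →
    ∀ α : MulAut G, Stb M χ α → ∀ n : ℕ, 0 < n → α ^ n = 1 → 3 < p → Sml p n →
    ∃ m : ℤ, Om p M χ R α = (p : ℂ) * (Nat.card G : ℂ) * m

/-- **BDE** (block E4). The trace is bounded by the number of Brauer characters. -/
def BDE_stmt : Prop :=
  ∀ (p : ℕ) (M : Ideal (integralClosure ℤ ℂ)), Setup p M → ∀ (G : Type) [Group G] [Finite G]
    (H : Subgroup G) (S : Set (G → ℂ)), BC M H S → ∀ α : MulAut G, am α H = H → (∀ ψ ∈ S, funMap α ψ ∈ S) →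
    ∀ l : ℕ, ∑ᶠ ψ ∈ S, EE p H ψ ψ = l → ‖tS p H S α‖ ≤ l

/-- **PRK** (block E5). Elements of large prime order (`> l + 1`) act trivially. -/
def PRK_stmt : Prop :=
  ∀ (p : ℕ) (M : Ideal (integralClosure ℤ ℂ)), Setup p M → ∀ (G : Type) [Group G] [Finite G]
    (χ : G → ℂ) (H : Subgroup G) (α : MulAut G), am α H = H → Stb M χ α → ∀ l : ℕ, LL p M χ H = l →
    ∀ m₁ m₂ k : ℕ, 0 < m₁ → 0 < m₂ → α ^ (m₁ * m₂) = 1 → (∀ q : ℕ, q.Prime → q ∣ m₂ → l + 1 < q) →
    k ≡ 1 [MOD m₁] → tL p M χ H (α ^ k) = tL p M χ H α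

/-- **MN4E** (block E2). The traces of `α` for `B` and for its Brauer correspondent agree. -/
def MN4E_stmt : Prop :=
  ∀ (p : ℕ) (M : Ideal (integralClosure ℤ ℂ)), Setup p M → ∀ (G : Type) [Group G] [Finite G]
    (D : Subgroup G) (x : G) (θ χ : G → ℂ), Rt p M D x θ χ → Hyp p M D θ →
    ∀ α : MulAut G, am α D = D → Stb M χ α → tL p M χ ⊤ α = tL p M χ (nz D) α

/-- **TG4E** (block E2). The last hypothesis is MN4E for the smaller groups. -/
def TG4E_stmt : Prop :=
  ∀ (p : ℕ) (M : Ideal (integralClosure ℤ ℂ)), Setup p M → ∀ (G : Type) [Group G] [Finite G]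
    (D : Subgroup G) (x : G) (θ χ : G → ℂ), Rt p M D x θ χ → Hyp p M D θ →
    ∀ R : Subgroup G, IsOp p (⊤ : Subgroup G) R → R ≤ D → R ≠ D → ∀ α : MulAut G, am α D = D → Stb M χ α →
    (∀ (G' : Type) [Group G'] [Finite G'], Nat.card G' < Nat.card G → ∀ (D' : Subgroup G') (x' : G')
      (θ' χ' : G' → ℂ), Rt p M D' x' θ' χ' → Hyp p M D' θ' → ∀ β : MulAut G', am β D' = D' → Stb M χ' β →
      tL p M χ' ⊤ β = tL p M χ' (nz D') β) →
    Om p M χ R α = (Nat.card G : ℂ) * (tL p M χ ⊤ α - tL p M χ (nz D) α)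

/-- **DSZ** (block E6). The sum of Dade over all `d` and all `U` containing `a` is zero. -/
def DSZ_stmt : Prop :=
  ∀ (p : ℕ) (M : Ideal (integralClosure ℤ ℂ)), Setup p M → ∀ (G E A : Type) [Group G] [Group E] [Group A]
    [Finite G] [Finite E] (X : Extension G E A), IsOp p (⊤ : Subgroup G) ⊥ → ∀ (D : Subgroup G) (x : G)
    (θ χ : G → ℂ), Rt p M D x θ χ → Hyp p M D θ → D ≠ ⊥ → ∀ a : A, dadeSum X p M χ a = 0

/-- **DSE** (block E6, output 1). All `E`, all `a`, all `d`. -/
def DSE_stmt : Prop :=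
  ∀ (p : ℕ) (M : Ideal (integralClosure ℤ ℂ)), Setup p M → ∀ (G E A : Type) [Group G] [Group E] [Group A]
    [Finite G] [Finite E] (X : Extension G E A), IsOp p (⊤ : Subgroup G) ⊥ → ∀ (D : Subgroup G) (x : G)
    (θ χ : G → ℂ), Rt p M D x θ χ → Hyp p M D θ → D ≠ ⊥ → ∀ (a : A) (d : ℤ),
    ∑ᶠ U : {U : Subgroup A // a ∈ U}, altSum X p M χ d U.1 = 0

/-- **DSC** (block E6, output 2). `E_B / E[B]` cyclic, all `d`, all `U`. -/
def DSC_stmt : Prop :=
  ∀ (p : ℕ) (M : Ideal (integralClosure ℤ ℂ)), Setup p M → ∀ (G E A : Type) [Group G] [Group E] [Group A]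
    [Finite G] [Finite E] (X : Extension G E A), IsOp p (⊤ : Subgroup G) ⊥ → ∀ (D : Subgroup G) (x : G)
    (θ χ : G → ℂ), Rt p M D x θ χ → Hyp p M D θ → D ≠ ⊥ →
    ∀ s : A, (∀ a ∈ Pool.Agent.BQ.AB X M χ, ∃ k : ℤ, s ^ k * a ∈ Pool.Agent.BQ.AI X M χ) →
    ∀ (d : ℤ) (U : Subgroup A), altSum X p M χ d U = 0

end Pool.Agent.FI4E
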