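import Pool.Agent.helper59.FI4.AllI
import Pool.Agent.helper70.FI4.AllK
import Pool.Agent.helper35.BQ.All
import Pool.Agent.helper59.FI4.AllM
import Pool.Agent.helper70.FI4E.AllE3
import Pool.Agent.helper39.FI4E.BAA
import Pool.Agent.helper65.FI4E.TAU
import Pool.Agent.helper76.FI4E.TSI
import Pool.Agent.helper11.FI4E.TSJ
import Pool.Agent.helper61.FI4E.UNS
import Pool.Agent.helper76.FI4E.FNC
import Pool.Agent.helper67.FI4E.OMB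
import Pool.Agent.helper50.FI4E.OMX
import Pool.Agent.helper33.FI4E.BDE
import Pool.Agent.helper91.FI4E.SCG
import Pool.Agent.helper81.FI4E.RAT
import Pool.Agent.helper36.FI4E.LIN
import Pool.Agent.helper76.FI4E.PRP
import Pool.Agent.helper27.FI4E.PRK
import Pool.Agent.helper21.FI4E.TRA
import Pool.Agent.helper30.FI4E.TRE
import Pool.Agent.helper27.FI4E.LBE
import Pool.Agent.helper58.FI4E.LSE
import Pool.Agent.helper21.FI4E.LOE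
import Pool.Agent.helper9.FI4E.IHE
import Pool.Agent.helper18.FI4E.TGP
import Pool.Agent.helper27.FI4E.CTG
import Pool.Agent.helper26.FI4E.TOE
import Pool.Agent.helper22.FI4E.LCG
import Pool.Agent.helper72.FI4E.TG4E
import Pool.Agent.helper28.FI4E.MN4E
import Pool.Agent.helper44.FI4E.DFA
import Pool.Agent.helper49.FI4E.OMR
import Pool.Agent.helper68.FI4E.DSZ
import Pool.Agent.helper52.FI4E.DHZ
import Pool.Agent.helper24.FI4E.DSE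
import Pool.Agent.helper56.FI4E.DSC

/-!
# Project fi4e (MP_baa4d7_al): assembly

OUTPUT (no hypotheses). `eDSE : DSE_stmt` (all finite `E`, all `a`, all `d`), `eDSC : DSC_stmt` (`E_B / E[B]` cyclic, all `d`, all `U`), also
`eMN4E : MN4E_stmt`, `eTG4E`, `eDSZ`, `eBDE`, `ePRK`, `eRAT`, `eOMX`. Statements in `helper58/FI4E/Defs`.
-/

set_option autoImplicit false

namespace Pool.Agent.FI4E.AllE

open Pool.Agent Pool.Agent.FI Pool.Agent.FI3 Pool.Agent.FI4 Pool.Agent.FI4E Pool.Agent.GR Pool.Agent.helper58.DC Pool.Agent.DI Pool.Agent.OB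

theorem eBAA : BAA_stmt := FI4E.BAA GR.All.dIF GR.All.dIM GR.All.dTI
theorem eTAU : TAU_stmt := FI4E.TAU GR.All.dB2
theorem eTSI : TSI_stmt := FI4E.TSI GR.All.dB2 eBAA
theorem eTSJ : TSJ_stmt := FI4E.TSJ eBAA GR.All.dIM
theorem eUNS : UNS_stmt := FI4E.UNS eBAA Pool.Agent.FI.AllQ.qQEI Pool.Agent.FI.AllA.dBLE GR.All.dBCL GR.All.dIM
theorem eFNC : FNC_stmt := FI4E.FNC Pool.Agent.FI.AllC.cFNO
theorem eOMB : OMB_stmt := FI4E.OMB 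
theorem eOMX : OMX_stmt := FI4E.OMX GR.All.dMA1 GR.All.dTOT eFNC eOMB eTAU
theorem eBDE : BDE_stmt := FI4E.BDE Pool.Agent.FI.AllQ.qQEI GR.All.dB2 eBAA
theorem eSCG : SCG_stmt := FI4E.SCG GR.All.dSEC eTAU
theorem eRAT : RAT_stmt := FI4E.RAT eSCG eTSI eBAA
theorem eLIN : LIN_stmt := FI4E.LIN 
theorem ePRP : PRP_stmt := FI4E.PRP eLIN
theorem ePRK : PRK_stmt := FI4E.PRK ePRP eRAT Pool.Agent.FI.AllQ.qQEI GR.All.dBCL GR.All.dB2 eBAA GR.All.dIM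
theorem eTRA : TRA_stmt := FI4E.TRA 
theorem eTRE : TRE_stmt := FI4E.TRE eTRA Pool.Agent.FI4I.AllI.iTR1 Pool.Agent.FI4I.AllI.iTR2 Pool.Agent.FI4I.AllI.iTR4 Pool.Agent.FI.AllA.dTPR
theorem eLBE : LBE_stmt := FI4E.LBE Pool.Agent.FI4I.AllI.iBKN Pool.Agent.FI4I.AllI.iBKV Pool.Agent.FI4I.AllI.iBKC Pool.Agent.FI4I.AllI.iDCT eTSI eUNS eBAA Pool.Agent.FI.AllC.cFEQ Pool.Agent.FI.AllA.dCJG
theorem eLSE : LSE_stmt := FI4E.LSE Pool.Agent.FI.AllC.cFSI GR.All.dB2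
theorem eLOE : LOE_stmt := FI4E.LOE eLBE eLSE Pool.Agent.FI4I.AllI.iBKV Pool.Agent.FI.AllA.dEXB
theorem eIHE : IHE_stmt := FI4E.IHE eTRE eTRA Pool.Agent.FI4I.AllI.iRTN Pool.Agent.FI4I.AllI.iHYN Pool.Agent.FI4I.AllI.iCJR Pool.Agent.FI4I.AllI.iBKV Pool.Agent.FI4I.AllI.iTR3 Pool.Agent.FI.AllC.cFSI
theorem eTGP : TGP_stmt := FI4E.TGP 
theorem eCTG : CTG_stmt := FI4E.CTG eBAA eTSI eTSJ
theorem eTOE : TOE_stmt := FI4E.TOE eTGP eCTG eBAA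
theorem eLCG : LCG_stmt := FI4E.LCG eLOE eTSI eBAA
theorem eTG4E : TG4E_stmt := FI4E.TG4E eTOE eLCG eIHE Pool.Agent.FI3F.AllF.cFMX3 eTSI eBAA
theorem eMN4E : MN4E_stmt := FI4E.MN4E eTG4E (Pool.Agent.FI4E.AllE3.eDV4E eOMX eUNS) Pool.Agent.FI4.AllK.kOPD Pool.Agent.FI4.AllHT.tHT4 Pool.Agent.FI4.AllM.mBD4 (Pool.Agent.FI4I.AllI.iONB Pool.Agent.FI4.AllM.mBD4) eBDE ePRK eBAA GR.All.dBCL GR.All.dIM
theorem eDFA : DFA_stmt := FI4E.DFA Pool.Agent.FI.AllB.dCON eBAA GR.All.dIM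
theorem eOMR : OMR_stmt := FI4E.OMR eUNS eBAA
theorem eDSZ : DSZ_stmt := FI4E.DSZ eOMX eOMR eDFA eTG4E eMN4E eBAA
theorem eDHZ : DHZ_stmt := FI4E.DHZ Pool.Agent.DR.AllDI.iA13 (Pool.Agent.FI4I.AllI.iHN4 Pool.Agent.FI4.AllHT.tHT4)
theorem eDSE : DSE_stmt := FI4E.DSE eDSZ eDHZ
theorem eDSC : DSC_stmt := FI4E.DSC eDSE Pool.Agent.BQ.All.qZRO Pool.Agent.BQ.DWN

end Pool.Agent.FI4E.AllE
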