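import Mathlib
import Pool.Agent.helper58.FI4E.Defs
import Pool.Agent.helper35.BQ.Spec

/-!
# Project fi4e (MP_baa4d7_al), blocks E1, E2, E4, E5, E6: the rows

TARGET. Blocks as in fi4 (`Rt`, `Hyp`), ALL finite `E`: the alternating sums over the `U` which contain `a` are `0` for all `a` and `d` (DSE), and if
`E_B / E[B]` is cyclic all alternating sums are `0` (DSC). The statements OMX UNS BDE PRK MN4E TG4E DSZ DSE DSC (and DV4E, block E3 of helper70) are in `Defs`.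

RULES. File `Pool/Agent/<seat>/FI4E/XXX.lean` with

  import Pool.Agent.helper58.FI4E.Spec
  set_option autoImplicit false
  namespace Pool.Agent.FI4E
  open Pool.Agent.helper58.DC Pool.Agent.DI Pool.Agent.GR Pool.Agent.OB Pool.Agent.DR Pool.Agent.FI Pool.Agent.FI3 Pool.Agent.FI4 Pool.Agent.FI4I
  theorem XXX (hYYY : YYY_stmt) ... : XXX_stmt := ...
  end Pool.Agent.FI4E

auxiliary lemmas prefixed `XXX_`, no sorry, no double quotes, no `convert`, no `congr!`. The rows named in the docstring are hypotheses; all rows of this file, of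
`Defs`, and of the specs of fi4 (`helper59/FI4/SpecI`: TR1 TR2 TR3 TR4 TRL TRT HYN DFH RTN TTC CJR BKN BKV BKC LBI DCT LBS ..; `helper59/FI4/Defs`: HT4 BD4 ONB HN4 ..;
`helper70/FI4/DefsK`: LBN OPD), fi, fi3 (FNO FEQ FSI FMX3 FOV3 ..; CON of `helper59/FI/SpecB2`; QEI QIT QCJ of `helper70/FI/SpecQ1`; SpecA of helper22: TPR BLE CJG EXB ..), GR, DI, DC
may be added as further hypotheses (no circles). A row which is the twin of a row of fi4 says so: start from that file (`grep -rl 'theorem XXX' Pool/Agent/*/FI4`).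

NOTATION (`Defs`). `am α Q`, `al α g = conj g * α`, `FxC α C`, `Stb M χ α`, `tS p H S α = ∑_{ψ ∈ S} EE p H (funMap α ψ) ψ`, `tL p M χ H α = tS p H (Blk M χ H) α`, `Bq M N H φ = {ζ ∈ IrrOn H | SB M N ζ φ}`
(`helper22/FI/SpecA`), `Om`, `Sml`, `Rst N α β`, `RedE`, `Mid p Q N` (SpecI). Ready lemmas in `Defs`: `mem_am al_apply al_inv_apply al_one al_al am_mul am_one am_conj funMap_mul funMap_conj am_al funMap_al conj_al hol_act hol_proj hol_inc`.
`1 : MulAut G`; `LL p M χ H = tL p M χ H 1`.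
-/

set_option autoImplicit false

namespace Pool.Agent.FI4E

open Pool.Agent.helper58.DC Pool.Agent.DI Pool.Agent.GR Pool.Agent.OB Pool.Agent.DR Pool.Agent.FI Pool.Agent.FI3 Pool.Agent.FI4 Pool.Agent.FI4I

/-! ## 0. Basic facts -/

/-- **BAA** (medium, many short items; from IF, IM of DC, TI of DC). Automorphisms (compare FEQ of `helper58/FI/SpecC`, `Pool/Agent/*/FI/FEQ.lean`). `mem_am`; `α` is bijective; for `SB`: `z ↦ z ∘ α` maps the class functions of `am α L` onto those of `L`, and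
`cc (funMap α ψ) z = cc ψ (z ∘ α)` (`cc_funMap`, `helper12/FI/Defs`). `EE`: substitution `v = α w`, `PReg` is invariant (`orderOf`). `nrm C` is the infimum of the `nz Q`. -/
def BAA_stmt : Prop :=
  ∀ (G : Type) [Group G] [Finite G] (M : Ideal (integralClosure ℤ ℂ)) (p : ℕ) (α : MulAut G)
    (P Q L : Subgroup G) (η ψ χ : G → ℂ),
    (cz (am α P) = am α (cz P) ∧ nz (am α P) = am α (nz P) ∧ (am α P ≤ am α Q ↔ P ≤ Q) ∧
      am α (P ⊓ Q) = am α P ⊓ am α Q ∧ Nat.card (am α P) = Nat.card P ∧ am α ⊤ = ⊤ ∧ am α ⊥ = ⊥ ∧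
      (IsPGroup p (am α P) ↔ IsPGroup p P) ∧ (IsOp p ⊤ P → am α P = P)) ∧
    (∀ y, am α (Cz L y) = Cz (am α L) (α y)) ∧
    (ψ ∈ IrrOn L ↔ funMap α ψ ∈ IrrOn (am α L)) ∧
    (SB M L η ψ ↔ SB M (am α L) (funMap α η) (funMap α ψ)) ∧
    (χ ∈ Irr G ↔ funMap α χ ∈ Irr G) ∧
    (Induces M (funMap α η) (funMap α ψ) ↔ Induces M η ψ) ∧
    EE p (am α L) (funMap α η) (funMap α ψ) = EE p L η ψ ∧
    (∀ C : Finset (Subgroup G), FxC α C → am α (nrm C) = nrm C) ∧
    (∀ g : G, am α (cjS g P) = cjS (α g) (am α P) ∧ funMap α (cjF g ψ) = cjF (α g) (funMap α ψ)) ∧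
    (∀ g ∈ L, ψ ∈ IrrOn L → cjF g ψ = ψ ∧ cjS g L = L) ∧
    (∀ g : G, χ ∈ Irr G → cjF g χ = χ ∧ (Stb M χ (al α g) ↔ Stb M χ α))

/-- **TAU** (short; from B2). `tau` of GR is `tL`. Proof: exchange the finite sums (`Blk M χ H ⊆ IrrOn H` is finite, B2; the set of the `v` is finite), `funMap α ψ v = ψ (α⁻¹ v)`. -/
def TAU_stmt : Prop :=
  ∀ (p : ℕ) (M : Ideal (integralClosure ℤ ℂ)) (G : Type) [Group G] [Finite G] (χ : G → ℂ) (H : Subgroup G)
    (α : MulAut G), tau p M χ H α = tL p M χ H α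

/-- **TSI** (short; from B2, BAA). Inner automorphisms of `H`. Proof: `α⁻¹ n ∈ H`, `funMap (al α n) ψ x = ψ (α⁻¹ (n⁻¹ x n)) = ψ (m⁻¹ (α⁻¹ x) m)` with `m = α⁻¹ n`, so `funMap (al α n) ψ = funMap α ψ` for `ψ ∈ IrrOn H` (`al_inv_apply`; B2: `ψ` is a class function of `H`). -/
def TSI_stmt : Prop :=
  ∀ (p : ℕ) (G : Type) [Group G] [Finite G] (H : Subgroup G) (α : MulAut G), am α H = H → ∀ n ∈ H,
    (∀ ψ ∈ IrrOn H, funMap (al α n) ψ = funMap α ψ) ∧
    ∀ S : Set (G → ℂ), S ⊆ IrrOn H → tS p H S (al α n) = tS p H S α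

/-- **TSJ** (short to medium; from BAA). Transport by `β`. Proof: `funMap (β * α * β⁻¹) (funMap β ψ) = funMap β (funMap α ψ)` (`funMap_mul`), `EE` by BAA; the sum over `funMap β '' S` (injective). (2) `Blk M χ (am β H) = funMap β '' Blk M χ H` if the block is stable under `β`
(and hence under `β⁻¹`): BAA, IM of DC. (3) `Bq M N (am β H) φ = funMap β '' Bq M N H φ`: BAA, `SB.trans`. (4) `β = MulAut.conj g` in (2) (`χ ∈ Irr G` is stable: BAA). -/
def TSJ_stmt : Prop :=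
  ∀ (p : ℕ) (M : Ideal (integralClosure ℤ ℂ)) (G : Type) [Group G] [Finite G] (H : Subgroup G)
    (α β : MulAut G),
    (∀ S : Set (G → ℂ), tS p (am β H) (funMap β '' S) (β * α * β⁻¹) = tS p H S α) ∧
    (∀ χ : G → ℂ, Stb M χ β → tL p M χ (am β H) (β * α * β⁻¹) = tL p M χ H α) ∧
    (∀ (N : Subgroup G) (φ : G → ℂ), am β N = N → SB M N (funMap β φ) φ →
      tS p (am β H) (Bq M N (am β H) φ) (β * α * β⁻¹) = tS p H (Bq M N H φ) α) ∧
    ∀ χ ∈ Irr G, ∀ g : G, tL p M χ (cjS g H) (MulAut.conj g * α * (MulAut.conj g)⁻¹) = tL p M χ H α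

/-! **UNS** (statement in `Defs`; short to medium; from BAA, QEI, BLE, BCL, IM of DC). Proof: (1) let `ψ ∈ Bq M N H φ`. `funMap α ψ ∈ IrrOn H` and `SB M N (funMap α ψ) (funMap α φ)` (BAA, `am α N = N`); if `funMap α ψ` were in `Bq M N H φ` then `SB M N (funMap α φ) φ` (`SB.symm`, `SB.trans`).
So `EE p H (funMap α ψ) ψ = 0` by QEI (2) for `S = Bq M N H φ` (a union of blocks, BLE; only `H ≤ N` is used). (2) the same with `S = Blk M χ H` (BCL) and IM of DC. -/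

/-! ## 1. Block E1: Knörr-Robinson -/

/-- **FNC** (short; pure; from FNO). FNO for functions with complex values. Proof: for every subgroup `K` FNO for the function `g' = 1` at `K`, `0` elsewhere (values in `ℤ`) says that the two alternating numbers of the chains `C` with `N ⊓ nrm C = K` agree; multiply by `g K` and sum over the finitely
many `K` (`Finset.sum_fiberwise`-like: `g (N ⊓ nrm C) = ∑_K g K * [N ⊓ nrm C = K]`). -/
def FNC_stmt : Prop :=
  ∀ (Γ : Type) [Group Γ] [Finite Γ] (p : ℕ) [Fact p.Prime] (L P N : Subgroup Γ)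
    (g : Subgroup Γ → ℂ), IsPGroup p P → P ≤ L →
    ∑ᶠ C ∈ {C : Finset (Subgroup Γ) | PCh p L P C}, (-1 : ℂ) ^ (C.card + 1) * g (N ⊓ nrm C) =
      ∑ᶠ C ∈ {C : Finset (Subgroup Γ) | NCh p L P C}, (-1 : ℂ) ^ (C.card + 1) * g (N ⊓ nrm C)

/-- **OMB** (medium; pure; compare B14 of DI, KCH of `helper70/FI4/SpecK`). The chains of `G` and of `X.inc.range`. Proof: `Subgroup.map X.inc` is injective and maps onto the subgroups `≤ X.inc.range`; it respects `≤`, `⊥`, `⊤ ↦ range`, `IsPGroup`, `P ≤ nz Q`. `g ∈ (nrm (cmap X.inc C)).comap X.inc` iff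
`X.inc g` normalises all `Q.map X.inc`, iff `g` normalises all `Q ∈ C`. `X.inc (X.act e g) = e * X.inc g * e⁻¹` (`act_spec`), so `(am (X.act e) Q).map X.inc` is the conjugate of `Q.map X.inc` by `e`; `e ∈ nz (Q.map X.inc)` iff this conjugate is `Q.map X.inc` (finite groups: `Subgroup.mem_normalizer_iff`, or
`MulAut.conj`), iff `am (X.act e) Q = Q`. -/
def OMB_stmt : Prop :=
  ∀ (p : ℕ) [Fact p.Prime] (G E A : Type) [Group G] [Group E] [Group A] [Finite G] [Finite E]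
    (X : Extension G E A),
    Set.BijOn (cmap X.inc) {C | NCh p ⊤ ⊥ C} {C | NCh p X.inc.range ⊥ C} ∧
    ∀ C : Finset (Subgroup G), (cmap X.inc C).card = C.card ∧
      (nrm (cmap X.inc C)).comap X.inc = nrm C ∧ ∀ e : E, (e ∈ nrm (cmap X.inc C) ↔ FxC (X.act e) C)

/-! **OMX** (statement in `Defs`; medium; from MA1, TOT of GR, FNC, OMB, TAU). Proof: let `a = X.proj e₀`, `σ = refl` (`PFix p 0 n refl` is trivial). TOT: `galSum X p M χ a refl = dadeSum X p M χ a`. MA1: `|G| dadeSum` is the sum over the `e` with `X.proj e = a` and the `C` with `PCh p X.inc.range ⊥ C`, `e ∈ nrm C` of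
`(-1)^(|C|+1) tau p M χ ((nrm C).comap X.inc) (X.act e)`. For fixed `e` FNC for `L = X.inc.range`, `P = ⊥`, `N = ⊤`, `g K = if e ∈ K then tau p M χ (K.comap X.inc) (X.act e) else 0` replaces `PCh` by `NCh`; OMB (`finsum_mem_eq_of_bijOn`) turns it into the sum over the `C` with `NCh p ⊤ ⊥ C`, `FxC (X.act e) C` of
`(-1)^(|C|+1) tL p M χ (nrm C) (X.act e)` (TAU). `g ↦ X.inc g * e₀` is a bijection from `G` onto the `e` over `a` (`X.exact`, `X.inc_injective`), and `X.act (X.inc g * e₀) = al (X.act e₀) g` (`X.act (X.inc g) = MulAut.conj g`: `inc_injective`, `act_spec`). -/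

/-! ## 2. Block E4: the bound

**BDE** (statement in `Defs`; medium; from QEI, B2, BAA). Proof: `S` is finite (B2). `E φ ψ = EE p H φ ψ` for `φ, ψ ∈ S`: `∑_φ E ψ φ * E φ ψ' = E ψ ψ'`, `E ψ φ = conj (E φ ψ)` (QEI (1), (3)). `tS = ∑_ψ E (αψ) ψ = ∑_ψ ∑_φ E (αψ) φ * E φ ψ`, so by Cauchy-Schwarz (`Finset.inner_mul_le_norm_mul_norm`,
`Finset.sum_mul_sq_le_sq_mul_sq` for the real numbers `‖E (αψ) φ‖`, `‖E φ ψ‖` on `S × S`) `‖tS‖² ≤ (∑_{ψ,φ} ‖E (αψ) φ‖²) (∑_{ψ,φ} ‖E φ ψ‖²)`. `ψ ↦ funMap α ψ` is a permutation of the finite set `S` (injective), so both factors are `∑_{ψ,φ} ‖E ψ φ‖² = ∑_ψ E ψ ψ = l` (`E ψ φ * E φ ψ = ‖E ψ φ‖²`). -/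

/-! ## 3. Block E5: rationality and elements of large prime order -/

/-- **SCG** (medium; from SEC of GR, TAU). SEC for the holomorph. Proof: `X = hol G`, `a = α`, `σ = refl`, `s = 1` (`Ex p (Nat.card G) refl 1` is trivial), `N = {e | e.left ∈ H ∧ am e.right H = H}` (a subgroup: `(g, β) (h, γ) = (g β h, β γ)`, `β h ∈ H`). `N.comap X.inc = H` (`hol_inc`; `am 1 H = H`). The `e ∈ N` with `X.proj e = α`
are the `⟨h, α⟩`, `h ∈ H` (`hol_proj`; `am α H = H`), a bijection with `H`; `X.act e = al α h` (`hol_act`); `((X.act e)⁻¹ y) ^ 1 = y` iff `al α h y = y`. -/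
def SCG_stmt : Prop :=
  ∀ (p : ℕ) (M : Ideal (integralClosure ℤ ℂ)), Setup p M → ∀ (G : Type) [Group G] [Finite G] (χ : G → ℂ)
    (H : Subgroup G) (α : MulAut G), am α H = H →
    ∑ᶠ h ∈ (H : Set G), (cnt M χ H (al α h) (RingEquiv.refl ℂ) : ℂ) =
      ∑ᶠ h ∈ (H : Set G), ∑ᶠ y ∈ {y : G | y ∈ H ∧ PEl p y ∧ al α h y = y}, tL p M χ (Cz H y) (al α h)

/-- **RAT** (medium; from SCG, TSI, BAA). Rationality. Proof: strong induction on `Nat.card H` (for all `α`). In SCG the left side is a natural number. The `y` on the right side which are central in `H` (`∀ h ∈ H, h * y = y * h`) have `Cz H y = H`, and for them `al α h y = h * α y * h⁻¹ = α y` (`α y ∈ H` is again central in `H`,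
`am α H = H`), so the condition is `α y = y`, independent of `h`, and the term is `tL p M χ H (al α h) = tL p M χ H α` (TSI, `Blk M χ H ⊆ IrrOn H`). Together they give `|H| * z * tL p M χ H α`, `z` the number of the central `p`-elements `y` of `H` with `α y = y`, `z ≥ 1` (`y = 1`). For the other `y` the group
`Cz H y` is smaller than `H`, and `am (al α h) (Cz H y) = Cz H y` (BAA: `am (al α h) H = H`, `al α h y = y`), so the terms are rational by induction. A finite sum of rational numbers is rational. -/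
def RAT_stmt : Prop :=
  ∀ (p : ℕ) (M : Ideal (integralClosure ℤ ℂ)), Setup p M → ∀ (G : Type) [Group G] [Finite G] (χ : G → ℂ)
    (H : Subgroup G) (α : MulAut G), am α H = H → ∃ q : ℚ, tL p M χ H α = q

/-- **LIN** (medium; pure). Proof: `F = P ^ (m / q)`, `F ^ q = 1`, `w` a primitive `q`-th root of unity, `Π i = q⁻¹ ∑_{j < q} w^(-i j) E F^j` (`i : ZMod q` or `i < q`): idempotent (`E`, `F` commute), `E F = ∑_i w^i Π i`, `E = ∑_i Π i`. `a i = trace (Π i)` is a natural number (trace of an idempotent matrix, as in QIR: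
`Pool/Agent/*/FIB/QIR.lean`), `∑ a i = l`. With the rational numbers `r j = trace (E F^j)`: `a i = q⁻¹ ∑_j w^(-i j) r j`. For `i ≠ 0` a field automorphism `σ` of `ℂ` (or of the cyclotomic field) with `σ w = w^i` maps `a 1` to `a i`, and fixes the natural number `a 1`: `a i = a 1`. (Automorphisms of `ℂ`: see `helper83/GR` (GLS, CYC) how they are
produced, `IsPrimitiveRoot..`, `exists_algHom..`; or without them: `∑_j (r j) x^j`-argument: the minimal polynomial of `w` over `ℚ` is `1 + x + .. + x^(q-1)`: `q a 1 = ∑_j r j w^(-j)` gives `r j = r 1` for all `j ≠ 0`: linear independence of `w, .., w^(q-1)` over `ℚ` (`IsPrimitiveRoot.minpoly..`, degree `q - 1`); then `a i = q⁻¹ (r 0 - r 1)` for `i ≠ 0`.)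
So `(q - 1) a 1 ≤ l < q - 1` and `a i = 0` for `i ≠ 0`; an idempotent matrix of trace `0` is `0` (its rank is its trace). So `E = Π 0 = E F`. -/
def LIN_stmt : Prop :=
  ∀ (ι : Type) [Fintype ι] [DecidableEq ι] (E P : Matrix ι ι ℂ) (l m q : ℕ), E * E = E → P * E = E * P →
    P ^ m = 1 → Matrix.trace E = l → (∀ j : ℕ, ∃ r : ℚ, Matrix.trace (E * P ^ j) = r) → q.Prime → l + 1 < q →
    q ∣ m → 0 < m → E * P ^ (m / q) = E

/-- **PRP** (short to medium; pure; from LIN). Proof: induction on `m₂` (strong, for all `P`). `m₂ = 1`: `P ^ m₁ = 1`, `k ≡ 1` modulo `m₁`: `P ^ k = P` (`pow_eq_pow_iff_modEq`-type; `orderOf P ∣ m₁`; `k ≥ 1` or `m₁ = 1`, `P = 1`). Otherwise let `q` be a prime divisor of `m₂`. LIN for `m = m₁ * m₂`: `E * P ^ (m₁ * (m₂ / q)) = E`. Let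
`P' = E * P + (1 - E)`: `P' ^ j = E * P ^ j + (1 - E)`, so `P' E = E P'`, `P' ^ (m₁ * (m₂ / q)) = 1`, `E * P' ^ j = E * P ^ j`. Induction hypothesis for `P'` and `m₂ / q`. -/
def PRP_stmt : Prop :=
  ∀ (ι : Type) [Fintype ι] [DecidableEq ι] (E P : Matrix ι ι ℂ) (l m₁ m₂ k : ℕ), E * E = E → P * E = E * P →
    0 < m₁ → 0 < m₂ → P ^ (m₁ * m₂) = 1 → Matrix.trace E = l →
    (∀ j : ℕ, ∃ r : ℚ, Matrix.trace (E * P ^ j) = r) → (∀ q : ℕ, q.Prime → q ∣ m₂ → l + 1 < q) →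
    k ≡ 1 [MOD m₁] → E * P ^ k = E * P

/-! **PRK** (statement in `Defs`; medium; from PRP, RAT, QEI, BCL, B2, BAA, IM of DC). Proof: `ι` the finite type `Blk M χ H` (B2), `E φ ψ = EE p H φ ψ`, idempotent (QEI (1), BCL). `ψ ↦ funMap α ψ` is a permutation `π` of `ι` (BAA, stable; IM of DC), `P` its permutation matrix with `P φ ψ = 1` iff `ψ = π φ`, so that
`(P ^ j * E) φ ψ = E (π^j φ) ψ`; `P * E = E * P` by `EE p H (funMap α φ) (funMap α ψ) = EE p H φ ψ` (BAA). `trace (E * P^j) = trace (P^j * E) = ∑_ψ EE p H (funMap (α^j) ψ) ψ = tL p M χ H (α ^ j)` (`funMap_mul`), rational by RAT (`am (α ^ j) H = H`). `P ^ (m₁ m₂) = 1`. `trace E = LL = l`. PRP: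
`E * P ^ k = E * P`; take traces. -/

/-! ## 4. Block E2: transfer to the type `N` -/

/-- **TRA** (short to medium; pure). The restriction of `α` to `N`. Proof: `β n = ⟨α n, _⟩`, `mem_am`. `(β⁻¹ n : G) = α⁻¹ n`. (3) `ext`, `Subgroup.mem_subgroupOf`, `mem_am`. -/
def TRA_stmt : Prop :=
  ∀ (G : Type) [Group G] [Finite G] (N : Subgroup G) (α : MulAut G),
    (am α N = N → ∃ β : MulAut N, Rst N α β) ∧
    ∀ β : MulAut N, Rst N α β → am α N = N ∧ (∀ n : N, ((β⁻¹ n : N) : G) = α⁻¹ (n : G)) ∧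
      (∀ ψ : G → ℂ, funMap β (rN N ψ) = rN N (funMap α ψ)) ∧
      ∀ H : Subgroup G, H ≤ N → am β (H.subgroupOf N) = (am α H).subgroupOf N

/-- **TRE** (short to medium; from TRA, TR1, TR2, TR4, TPR; twin of TRL). Proof: `Blk M (rN N φ) (H.subgroupOf N)` is the set of the `ζ' ∈ IrrOn (H.subgroupOf N)` with `SB M ⊤ ζ' (rN N φ)` (TPR for the type `N`), and `ζ ↦ rN N ζ` is a bijection from `Bq M N H φ` onto it (TR1, TR2 (2) for `H := N`, `N.subgroupOf N = ⊤`).
`EE p (H.subgroupOf N) (funMap β (rN N ζ)) (rN N ζ) = EE p H (funMap α ζ) ζ` (TRA, TR4). (2) `H = N`, `N.subgroupOf N = ⊤`. (3) TPR, TRA, TR2 (2). -/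
def TRE_stmt : Prop :=
  ∀ (p : ℕ) (M : Ideal (integralClosure ℤ ℂ)), Setup p M → ∀ (G : Type) [Group G] [Finite G]
    (N : Subgroup G), ∀ φ ∈ IrrOn N, ∀ (α : MulAut G) (β : MulAut N), Rst N α β →
    (∀ H : Subgroup G, H ≤ N → tL p M (rN N φ) (H.subgroupOf N) β = tS p H (Bq M N H φ) α) ∧
    tL p M (rN N φ) ⊤ β = tS p N (Bq M N N φ) α ∧ (Stb M (rN N φ) β ↔ SB M N (funMap α φ) φ)

/-! ## 5. Block E2: the induction -/

/-- **LBE** (medium; from BKN, BKV, BKC, DCT, TSI, UNS, BAA, FEQ, CJG; twin of LBC). One block of `N`. Proof. Case 1: `¬ SB M N (funMap β φ) φ`. Both sides are `0` by UNS (1): for `n ∈ N` `am (al β n) N = N`, `am (al β n) (N ⊓ nz (cjS g D)) = N ⊓ nz (cjS g D)`, and `funMap (al β n) φ = funMap β φ` (TSI).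
Case 2: stable. If `¬ ∃ θ₁ ∈ IrrOn (cz (cjS g D)), SB M N θ₁ φ` then `Bq M N (N ⊓ nz (cjS g D)) φ = ∅` (BKV), the summand is `0`. Let `A'` be the set of the `g` with `Q ≤ cjS g D` and such a `θ₁`, `g₀ ∈ A'` (BKN), `A' = {g | ∃ n ∈ N, cjS n (cjS g₀ D) = cjS g D}` as in the proof of LBC (BKC). For `g ∈ A'` and `n ∈ N` with
`am (al β n) (cjS g D) = cjS g D` the summand is `tS p N (Bq M N N φ) (al β n) = tS p N (Bq M N N φ) β` (`RedE` for `al β n`, TSI). The number of these `n`: `am β D = cjS k D`, so `am β (cjS g D) = cjS g' D` with `g' = β g * k` (BAA), and `g' ∈ A'`: `Q = am β Q ≤ am β (cjS g D)`, `funMap β θ₁ ∈ IrrOn (cz (cjS g' D))`,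
`SB M N (funMap β θ₁) (funMap β φ)` (BAA), stable. So both `cjS g D`, `cjS g' D` are `N`-conjugate to `cjS g₀ D`, and the set of the `n ∈ N` with `cjS n (cjS g' D) = cjS g D` is a coset of `N ⊓ nz (cjS g' D)`, of order `|N ⊓ nz (cjS g₀ D)|`. So the right side is `|A'| |N ⊓ nz (cjS g₀ D)| * tS p N .. β = |N| |nz D| * tS p N .. β` (DCT). -/
def LBE_stmt : Prop :=
  ∀ (p : ℕ) (M : Ideal (integralClosure ℤ ℂ)), Setup p M → ∀ (G : Type) [Group G] [Finite G]
    (D : Subgroup G) (x : G) (θ χ : G → ℂ), Rt p M D x θ χ → ∀ Q N : Subgroup G, Mid p Q N →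
    RedE p M D χ Q N → ∀ φ ∈ Blk M χ N, ∀ β : MulAut G, am β N = N → am β Q = Q → (∃ k : G, am β D = cjS k D) →
    (Nat.card (nz D) : ℂ) * ((Nat.card N : ℂ) * tS p N (Bq M N N φ) β) =
      ∑ᶠ n ∈ (N : Set G), ∑ᶠ g ∈ {g : G | Q ≤ cjS g D ∧ am (al β n) (cjS g D) = cjS g D},
        tS p (N ⊓ nz (cjS g D)) (Bq M N (N ⊓ nz (cjS g D)) φ) (al β n)

/-- **LSE** (short; port of LBS: replace `EE p H ζ ζ` by `EE p H (funMap β ζ) ζ`). Sum over the blocks of `N`. -/
def LSE_stmt : Prop :=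
  ∀ (p : ℕ) (M : Ideal (integralClosure ℤ ℂ)), Setup p M → ∀ (G : Type) [Group G] [Finite G]
    (χ : G → ℂ) (N H : Subgroup G), H ≤ N → (∀ ζ ∈ Blk M χ H, ∃ φ ∈ IrrOn N, SB M N ζ φ) → ∀ β : MulAut G,
    ∑ᶠ φ ∈ Blk M χ N, tS p H (Bq M N H φ) β / ((Bl M N φ).ncard : ℂ) = tL p M χ H β

/-- **LOE** (short to medium; from LBE, LSE, BKV, EXB; twin of LOC). All blocks of `N`. Proof: divide LBE by `|Bl M N φ|`, sum over `φ ∈ Blk M χ N`, exchange the finite sums, LSE for `H = N` (`φ = ζ`) and for `H = N ⊓ nz (cjS g D)` (BKV and EXB, as in LOC). -/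
def LOE_stmt : Prop :=
  ∀ (p : ℕ) (M : Ideal (integralClosure ℤ ℂ)), Setup p M → ∀ (G : Type) [Group G] [Finite G]
    (D : Subgroup G) (x : G) (θ χ : G → ℂ), Rt p M D x θ χ → ∀ Q N : Subgroup G, Mid p Q N →
    RedE p M D χ Q N → ∀ β : MulAut G, am β N = N → am β Q = Q → (∃ k : G, am β D = cjS k D) →
    (Nat.card (nz D) : ℂ) * ((Nat.card N : ℂ) * tL p M χ N β) =
      ∑ᶠ n ∈ (N : Set G), ∑ᶠ g ∈ {g : G | Q ≤ cjS g D ∧ am (al β n) (cjS g D) = cjS g D},
        tL p M χ (N ⊓ nz (cjS g D)) (al β n)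

/-- **IHE** (short to medium; from TRE, TRA, RTN, HYN, CJR, BKV, TR3, FSI; twin of IHN). The induction hypothesis. Proof: `φ`, `g`, `θ₁`, `β` as in `RedE`, `D₁ = cjS g D`. `D₁ ≤ N`, `cz D₁ ≤ N` (BKV), `Induces M θ₁ χ` (FSI (2)), CJR: `Rt`, `Hyp` for `(D₁, θ₁)`; RTN, HYN for `N`. `β' ` the restriction of `β` to `N` (TRA):
`am β' (D₁.subgroupOf N) = D₁.subgroupOf N` (TRA (3), `am β D₁ = D₁`), `Stb M (rN N φ) β'` (TRE (3)). The hypothesis for `D₁.subgroupOf N`, `rN N θ₁`, `rN N φ`, `β'`; `nz (D₁.subgroupOf N) = (N ⊓ nz D₁).subgroupOf N` (TR3); TRE (1), (2). -/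
def IHE_stmt : Prop :=
  ∀ (p : ℕ) (M : Ideal (integralClosure ℤ ℂ)), Setup p M → ∀ (G : Type) [Group G] [Finite G]
    (D : Subgroup G) (x : G) (θ χ : G → ℂ), Rt p M D x θ χ → Hyp p M D θ → ∀ Q N : Subgroup G,
    Mid p Q N →
    (∀ (D' : Subgroup N) (x' : N) (θ' χ' : N → ℂ), Rt p M D' x' θ' χ' → Hyp p M D' θ' →
      ∀ β : MulAut N, am β D' = D' → Stb M χ' β → tL p M χ' ⊤ β = tL p M χ' (nz D') β) →
    RedE p M D χ Q N

/-- **TGP** (short to medium; pure). The toggle. Proof: the subgroups `≤ D` normalise each other (`D` is commutative), so `NCh p ⊤ R C` for a chain `C` of subgroups of `D` is `PCh p D R C`. On the finite set of the chains `C` in question without `{R, D}`: `C ↦ insert D C` if `D ∉ C`, `C.erase D` if `D ∈ C`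
(`Finset.sum_involution`; `am β D = D`, so `FxC β` does not change; erasing `D` from a chain `≠ {R, D}` never gives `{R}`, and inserting never gives `{R, D}` as `C ≠ {R}`); `nrm (insert D C) ⊓ nz D = nrm C ⊓ nz D`. The chain `{R, D}` remains (`R ≠ D`, `nrm {R, D} ⊓ nz D = nz D` as `nz R = ⊤`): `(-1)^3 f (nz D)`. (Compare FTG3, `Pool/Agent/*/FI3/FTG3.lean`.) -/
def TGP_stmt : Prop :=
  ∀ (G : Type) [Group G] [Finite G] (p : ℕ) [Fact p.Prime] (D R : Subgroup G) (β : MulAut G),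
    IsPGroup p D → (∀ a ∈ D, ∀ b ∈ D, a * b = b * a) → R < D → nz R = ⊤ → am β D = D → am β R = R →
    ∀ f : Subgroup G → ℂ,
    ∑ᶠ C ∈ {C : Finset (Subgroup G) | (NCh p ⊤ R C ∧ C ≠ {R}) ∧ FxC β C ∧ ∀ Q ∈ C, Q ≤ D},
      (-1 : ℂ) ^ (C.card + 1) * f (nrm C ⊓ nz D) = - f (nz D)

/-- **CTG** (short to medium; from BAA, TSI, TSJ; pure counting). The last sum of the toggle. Proof: `am (al α g) (cjS h D) = cjS (g * α h) D` (`am_al`, BAA, `am α D = D`), which is `cjS h D` iff `m = h⁻¹ * g * α h ∈ nz D`; so for fixed `h` the set of these `g` is the image of `nz D` under the injective map `m ↦ h * m * (α h)⁻¹`. For such `g`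
`al α g = conj h * al α m * (conj h)⁻¹` (`conj_al`), `nz (cjS h D) = cjS h (nz D)`, so the term is `tL p M χ (nz D) (al α m) = tL p M χ (nz D) α` (TSJ (4), TSI: `m ∈ nz D`, `am α (nz D) = nz D`). Exchange the sums over `g` and `h`. -/
def CTG_stmt : Prop :=
  ∀ (p : ℕ) (M : Ideal (integralClosure ℤ ℂ)) (G : Type) [Group G] [Finite G] (D : Subgroup G),
    ∀ χ ∈ Irr G, ∀ α : MulAut G, am α D = D →
    ∑ᶠ g : G, ∑ᶠ h ∈ {h : G | am (al α g) (cjS h D) = cjS h D}, tL p M χ (nz (cjS h D)) (al α g) =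
      (Nat.card G : ℂ) * ((Nat.card (nz D) : ℂ) * tL p M χ (nz D) α)

/-- **TOE** (medium; from TGP, CTG, BAA; twin of TOG). Proof: exchange the finite sums over `C`, `g`, `h`: for fixed `g`, `h` with `am (al α g) (cjS h D) = cjS h D` the sum over the `C` with `NCh p ⊤ R C`, `C ≠ {R}`, `FxC (al α g) C`, all terms `≤ cjS h D`, is `- tL p M χ (nz (cjS h D)) (al α g)` by TGP for `D₁ = cjS h D`, `β = al α g`
(`R` is normal: `IsOp p ⊤ R`, so `nz R = ⊤`, `am (al α g) R = R` (BAA), `R = cjS h R < cjS h D`), `f K = tL p M χ K (al α g)`; if `am (al α g) (cjS h D) ≠ cjS h D` there are no terms. CTG. -/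
def TOE_stmt : Prop :=
  ∀ (p : ℕ) (M : Ideal (integralClosure ℤ ℂ)), Setup p M → ∀ (G : Type) [Group G] [Finite G]
    (D : Subgroup G) (x : G) (θ χ : G → ℂ), Rt p M D x θ χ →
    ∀ R : Subgroup G, IsOp p (⊤ : Subgroup G) R → R ≤ D → R ≠ D → ∀ α : MulAut G, am α D = D →
    ∑ᶠ C ∈ {C : Finset (Subgroup G) | NCh p ⊤ R C ∧ C ≠ {R}}, (-1 : ℂ) ^ (C.card + 1) *
      ∑ᶠ g ∈ {g : G | FxC (al α g) C},
        ∑ᶠ h ∈ {h : G | (∀ Q ∈ C, Q ≤ cjS h D) ∧ am (al α g) (cjS h D) = cjS h D},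
          tL p M χ (nrm C ⊓ nz (cjS h D)) (al α g) =
      - ((Nat.card G : ℂ) * ((Nat.card (nz D) : ℂ) * tL p M χ (nz D) α))

/-- **LCG** (short to medium; from LOE, TSI, BAA). One chain. Proof: let `N = nrm C`. If no `g` satisfies `FxC (al α g) C` both sides are `0`. Otherwise fix one, `g₀`, `β = al α g₀`. `FxC (al α g) C` iff `g = n * g₀` with `n ∈ N` (`al α g = al β (g * g₀⁻¹)` by `al_al`; `am (al β n) Q = cjS n (am β Q) = cjS n Q` for `Q ∈ C`), so the sums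
over these `g` are sums over `n ∈ N` with `al α (n * g₀) = al β n`. `am β N = N` (BAA). LOE for `β` (`am β D = cjS g₀ D`, `am β Q = Q`): the left side is `|nz D| |N| tL p M χ N β` (TSI). `Q ≤ cjS h D` iff all terms of `C` are `≤ cjS h D`. -/
def LCG_stmt : Prop :=
  ∀ (p : ℕ) (M : Ideal (integralClosure ℤ ℂ)), Setup p M → ∀ (G : Type) [Group G] [Finite G]
    (D : Subgroup G) (x : G) (θ χ : G → ℂ), Rt p M D x θ χ → ∀ (C : Finset (Subgroup G)), ∀ Q ∈ C,
    (∀ R ∈ C, R ≤ Q) → Mid p Q (nrm C) → RedE p M D χ Q (nrm C) → ∀ α : MulAut G, am α D = D →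
    (Nat.card (nz D) : ℂ) * ∑ᶠ g ∈ {g : G | FxC (al α g) C}, tL p M χ (nrm C) (al α g) =
      ∑ᶠ g ∈ {g : G | FxC (al α g) C},
        ∑ᶠ h ∈ {h : G | (∀ R ∈ C, R ≤ cjS h D) ∧ am (al α g) (cjS h D) = cjS h D},
          tL p M χ (nrm C ⊓ nz (cjS h D)) (al α g)

/-! **TG4E** (statement in `Defs`; medium; from TOE, LCG, IHE, FMX3, TSI, BAA; twin of TG4). Proof: exchange the sums over `g` and `C` in `Om`. Multiply by `|nz D| ≠ 0` and split off the chain `{R}` (`NCh p ⊤ R {R}`, `nrm {R} = nz R = ⊤`, sign `+1`, `FxC (al α g) {R}` for all `g` by BAA): it gives `|nz D| |G| tL p M χ ⊤ α` (TSI for `H = ⊤`).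
For `C ≠ {R}` FMX3 (`L = ⊤`) gives the largest term `Q`, `R < Q`, `Mid p Q (nrm C)`; `nrm C ≠ ⊤` (otherwise `nz Q = ⊤`, `Q ≤ R` by `IsOp`), so `Nat.card (nrm C) < Nat.card G`, IHE with the hypothesis for the type `nrm C`, and LCG. Then TOE.

**MN4E** (statement in `Defs`; medium; from TG4E, DV4E, OPD, HT4, BD4, ONB, BDE, PRK, BAA, BCL; twin of MN4). Proof: strong induction on `Nat.card G` (for all `G`, `D`, .., `α`). `R = O_p(G)` exists (as in MN4), `R ≤ D` (OPD). If `R = D` then `nz D = ⊤`. Otherwise: BD4, ONB: `LL p M χ ⊤ = l`, `LL p M χ (nz D) = l'`, `2 l < p`, `2 l' < p`. `3 < p`: by `Hyp`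
`2 * (iI * |D|) < (p - 1) |RG|`, `RG ⊆ D`, `iI ≥ 1` (BD4: `1 ≤ l`, `2 l < p` gives `p ≥ 3`; `p = 3` contradicts `Hyp`: `2 iI |D| < 2 |RG| ≤ 2 |D|`). Let `m = orderOf α`, `m = m₁ * m₂` with coprime `m₁`, `m₂`, all prime divisors of `m₁` are `< p` and those of `m₂` are `≥ p` (`Nat.factorization`, or induction with
`Nat.recOnPrimeCoprime`, or products of `q ^ factorization`), `k ≡ 1` modulo `m₁`, `k ≡ 0` modulo `m₂` (`Nat.chineseRemainder`), `α' = α ^ k`: `α' ^ m₁ = 1`, `Sml p m₁`, `am α' D = D`, `Stb M χ α'` (powers: BAA, IM of DC). TG4E (with the induction hypothesis) and DV4E (heights zero: HT4) for `α'`: `tL ⊤ α' - tL (nz D) α' = p * m'` with `m' : ℤ`, and by BDE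
(for `S = Blk M χ ⊤` and `Blk M χ (nz D)`, stable) the norm is `≤ l + l' < p`: `m' = 0`. PRK for `H = ⊤` and `H = nz D` (`q ≥ p > 2 l ≥ l + 1`): `tL .. α' = tL .. α`. -/

/-! ## 6. Block E6: the conclusion -/

/-- **DFA** (short to medium; from CON, BAA, IM of DC). Proof: `D₁ = am α D`, `θ₁ = funMap α θ ∈ IrrOn (cz D₁)` (BAA), `Induces M θ₁ (funMap α χ)` and `Induces M (funMap α χ) χ`, so `Induces M θ₁ χ`. CON for `Q = D₁`: `g` with `cjS g D₁ ≤ D`, equality by cardinality; `am (al α g) D = cjS g D₁` (`am_al`). -/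
def DFA_stmt : Prop :=
  ∀ (p : ℕ) (M : Ideal (integralClosure ℤ ℂ)), Setup p M → ∀ (G : Type) [Group G] [Finite G]
    (D : Subgroup G) (x : G) (θ χ : G → ℂ), Rt p M D x θ χ → ∀ α : MulAut G, Stb M χ α →
    ∃ g : G, am (al α g) D = D

/-- **OMR** (short; from UNS, BAA). (1) Replace `h` by `h * g` in the sum (`al_al`). (2) UNS (2): every term of `Om` is `0` (`am (al α g) (nrm C) = nrm C` and `¬ Stb M χ (al α g)` by BAA). -/
def OMR_stmt : Prop :=
  ∀ (p : ℕ) (M : Ideal (integralClosure ℤ ℂ)), Setup p M → ∀ (G : Type) [Group G] [Finite G]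
    (χ : G → ℂ) (R : Subgroup G) (α : MulAut G), (∀ g : G, Om p M χ R (al α g) = Om p M χ R α) ∧
    (χ ∈ Irr G → ¬ Stb M χ α → Om p M χ R α = 0)

/-! **DSZ** (statement in `Defs`; short to medium; from OMX, OMR, DFA, TG4E, MN4E, BAA). Proof: `a = X.proj e`, `α = X.act e`. OMX: `|G| dadeSum = Om p M χ ⊥ α`. If `¬ Stb M χ α` this is `0` by OMR (2). Otherwise DFA: `g` with `am (al α g) D = D`; OMR (1), `Stb M χ (al α g)` (BAA); TG4E for `R = ⊥` and `al α g` (hypothesis: MN4E) and MN4E: `0`. `|G| ≠ 0`. -/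

/-- **DHZ** (short to medium; from A13 of DI, HN4). Only one defect. Proof: the representatives `c.out.1` are radical chains; A13: the largest term `Q`, `Mid p Q (nrm C)`; HN4: all `ψ ∈ Blk M χ (nrm C)` have `Defect p (nrm C) ψ a`. If `d ≠ a` then `kC X p M χ d U C = 0` for all `U` (a character has only one defect: `PF_defect_unique` in
`helper12/FI/PureF`), so `altSum = 0`. -/
def DHZ_stmt : Prop :=
  ∀ (p : ℕ) (M : Ideal (integralClosure ℤ ℂ)), Setup p M → ∀ (G E A : Type) [Group G] [Group E] [Group A]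
    [Finite G] [Finite E] (X : Extension G E A) (D : Subgroup G) (x : G)
    (θ χ : G → ℂ), Rt p M D x θ χ → Hyp p M D θ → ∀ a : ℕ, Nat.card D = p ^ a → ∀ d : ℤ, d ≠ a →
    ∀ U : Subgroup A, altSum X p M χ d U = 0

/-! **DSE** (statement in `Defs`; short; from DSZ, DHZ). Proof: `dadeSum X p M χ a = ∑ᶠ d, ∑ᶠ U, altSum`; by DHZ only `d = log_p |D|` contributes (`finsum_eq_single`); so for this `d` the sum is `0` by DSZ, and for the other `d` all terms are `0`.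

**DSC** (statement in `Defs`; short to medium; from DSE, ZRO, DWN, AI ≤ AB of the project BQ: `Pool/Agent/helper35/BQ/Spec.lean`, `All.lean` (`qZRO`, `AI_le_AB`), `Pool.Agent.BQ.DWN`). Proof: DWN for `a U = altSum X p M χ d U`, `K = AI X M χ`, `L = AB X M χ` (`A` is finite: `X.proj_surjective`). First condition: ZRO. Let `K ≤ V ≤ L`. The `k : ℤ` with
`s ^ k ∈ V` form a subgroup `j ℤ` of `ℤ` (`Int.subgroup_cyclic`, `AddSubgroup.zmultiples`). Let `b = s ^ j`. For `v ∈ V` `s ^ k * v ∈ K ≤ V`, so `s ^ k ∈ V`, `j ∣ k`, and `v = s ^ (-k) * (s ^ k * v) ∈ zpowers b ⊔ K`. So `zpowers b ⊔ K = V`, and the sum over the `W ≥ zpowers b` is the sum over the `W` containing `b`: `0` by DSE. -/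

end Pool.Agent.FI4E
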